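import Pool.Agent.Lib.MP_2e8272_nt.Proof

namespace Pool.Agent.Lib.MP_2e8272_nt.Old.LargeN

open Pool.Agent.Lib.MP_2e8272_nt

/-- `M n` = number of distinct multinomial coefficients of order `n`, `pSharp n` = number of
partitions of `n` with every part at most 7 or divisible by 3.  The inequality `M n ≤ pSharp n`
asked for in Q1 holds for all `n ≥ 2 ^ 500000`, with an exponentially small factor to spare. -/
theorem result : ∀ n : ℕ, 2 ^ 500000 ≤ n →
    M n ≤ pSharp n ∧ (M n : ℝ) ≤ Real.exp (-(Real.sqrt n / 20)) * pSharp n :=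
  fun n hn => ⟨main.1 n hn, main.2.1 n hn⟩

end Pool.Agent.Lib.MP_2e8272_nt.Old.LargeN
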